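import Mathlib

/-!
# Sets of natural numbers coded as binary numbers: shifting, union and counting
-/

set_option autoImplicit false
open Finset

namespace Pool.Agent.Helper370_SEPZ

/-- the union of the shifts of the set coded by `T` -/
def step (sh : List ℕ) (T : ℕ) : ℕ := sh.foldr (fun s acc => acc ||| (T <<< s)) 0

/-- `m`-fold sums of the elements of `sh` -/
def lev (sh : List ℕ) : ℕ → ℕ
  | 0 => 1
  | m + 1 => step sh (lev sh m)

lemma testBit_step (sh : List ℕ) (T p : ℕ) :
    (step sh T).testBit p = true ↔ ∃ s ∈ sh, s ≤ p ∧ T.testBit (p - s) = true := by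
  unfold step
  induction sh with
  | nil => simp
  | cons s sh ih =>
    rw [List.foldr_cons, Nat.testBit_or, Bool.or_eq_true, ih, Nat.testBit_shiftLeft]
    simp only [List.mem_cons, exists_eq_or_imp, Bool.and_eq_true, decide_eq_true_eq, ge_iff_le]
    rw [or_comm]

/-- a number with ones at the positions `0, b, 2 b, ..., (n - 1) b` -/
def mask (b : ℕ) : ℕ → ℕ
  | 0 => 0
  | n + 1 => 2 ^ b * mask b n + 1

lemma mask_mul (b n : ℕ) : (2 ^ b - 1) * mask b n + 1 = 2 ^ (b * n) := by
  induction n with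
  | zero => simp [mask]
  | succ n ih =>
    have h1 : 1 ≤ 2 ^ b := Nat.one_le_two_pow
    have h2 : mask b (n + 1) = 2 ^ b * mask b n + 1 := rfl
    have h3 : b * (n + 1) = b + b * n := by ring
    rw [h2, h3, pow_add, ← ih]
    obtain ⟨c, hc⟩ : ∃ c, 2 ^ b = c + 1 := ⟨2 ^ b - 1, by omega⟩
    rw [hc, Nat.add_sub_cancel]
    ring

lemma mask_eq (b n : ℕ) (hb : 0 < b) : mask b n = (2 ^ (b * n) - 1) / (2 ^ b - 1) := by
  rw [← mask_mul, Nat.add_sub_cancel, Nat.mul_div_cancel_left]
  have : 2 ^ 1 ≤ 2 ^ b := Nat.pow_le_pow_right (by norm_num) hb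
  omega

lemma and_mask_succ (b n x : ℕ) (hb : 0 < b) :
    x &&& mask b (n + 1) = 2 ^ b * ((x >>> b) &&& mask b n) + x % 2 := by
  have h1 : (1 : ℕ) < 2 ^ b := Nat.one_lt_two_pow (by omega)
  have h2 : x % 2 < 2 ^ b := by omega
  have h3 : mask b (n + 1) = 2 ^ b * mask b n + 1 := rfl
  apply Nat.eq_of_testBit_eq
  intro j
  rw [Nat.testBit_and, h3, Nat.testBit_two_pow_mul_add _ h1, Nat.testBit_two_pow_mul_add _ h2]
  by_cases hj : j < b
  · rw [if_pos hj, if_pos hj]
    have h4 : x % 2 = x % 2 ^ 1 := by rw [pow_one]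
    rw [h4, Nat.testBit_mod_two_pow]
    by_cases h0 : j = 0
    · subst h0; simp
    · have h6 : Nat.testBit 1 j = false := by
        rw [Bool.eq_false_iff]
        intro h7
        exact h0 (Nat.testBit_one_eq_true_iff_self_eq_zero.mp h7)
      rw [h6]
      simp [h0]
  · rw [if_neg hj, if_neg hj, Nat.testBit_and, Nat.testBit_shiftRight]
    have h5 : b + (j - b) = j := by omega
    rw [h5]

lemma and_mask_mod (b : ℕ) (hb : 0 < b) (n x : ℕ) :
    (x &&& mask b n) % (2 ^ b - 1) = (∑ j ∈ range n, (x.testBit (b * j)).toNat) % (2 ^ b - 1) := by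
  induction n generalizing x with
  | zero => simp [mask]
  | succ n ih =>
    rw [and_mask_succ b n x hb, Finset.sum_range_succ']
    have h1 : 1 ≤ 2 ^ b := Nat.one_le_two_pow
    have h2 : 2 ^ b ≡ 1 [MOD 2 ^ b - 1] := by
      obtain ⟨c, hc⟩ : ∃ c, 2 ^ b = c + 1 := ⟨2 ^ b - 1, by omega⟩
      rw [hc, Nat.add_sub_cancel]
      exact Nat.add_modEq_left
    have h4 := ih (x >>> b)
    have h5 : ∀ j, (x >>> b).testBit (b * j) = x.testBit (b * (j + 1)) := by
      intro j
      rw [Nat.testBit_shiftRight]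
      congr 1
      ring
    simp only [h5] at h4
    have h6 : (x.testBit (b * 0)).toNat = x % 2 := by
      rw [mul_zero, Nat.testBit_zero]
      rcases Nat.mod_two_eq_zero_or_one x with h | h <;> simp [h]
    rw [h6]
    have h7 : 2 ^ b * (x >>> b &&& mask b n) + x % 2 ≡
        1 * (∑ j ∈ range n, (x.testBit (b * (j + 1))).toNat) + x % 2 [MOD 2 ^ b - 1] :=
      Nat.ModEq.add_right _ (Nat.ModEq.mul h2 h4)
    rw [one_mul] at h7
    exact h7

lemma term_eq (b : ℕ) (hb : 0 < b) (n x q : ℕ) (hn : n < 2 ^ b - 1) :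
    ((x >>> q) &&& mask b n) % (2 ^ b - 1) =
      ∑ j ∈ range n, (x.testBit (q + b * j)).toNat := by
  rw [and_mask_mod b hb n]
  simp only [Nat.testBit_shiftRight]
  apply Nat.mod_eq_of_lt
  apply lt_of_le_of_lt _ hn
  calc ∑ j ∈ range n, (x.testBit (q + b * j)).toNat ≤ ∑ _j ∈ range n, 1 :=
        Finset.sum_le_sum (fun j _ => Bool.toNat_le _)
    _ = n := by simp

lemma sum_range_blocks {M : Type*} [AddCommMonoid M] (f : ℕ → M) (b n : ℕ) :
    ∑ p ∈ range (b * n), f p = ∑ j ∈ range n, ∑ r ∈ range b, f (b * j + r) := by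
  induction n with
  | zero => simp
  | succ n ih =>
    have h : b * (n + 1) = b * n + b := by ring
    rw [h, Finset.sum_range_add, ih, Finset.sum_range_succ]

/-- the mask used for counting -/
def MM : ℕ := (2 ^ (24 * 400000) - 1) / (2 ^ 24 - 1)

/-- the number of ones of `x` at positions below `38400000` -/
def cnt (x : ℕ) : ℕ :=
  (List.range 4).foldr (fun i acc => acc +
    (List.range 24).foldr (fun r acc' => acc' +
      ((x >>> (9600000 * i + r)) &&& MM) % (2 ^ 24 - 1)) 0) 0

lemma foldr_range (n : ℕ) (f : ℕ → ℕ) :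
    (List.range n).foldr (fun i acc => acc + f i) 0 = ∑ i ∈ range n, f i := by
  have h : ∀ (l : List ℕ) (g : ℕ → ℕ), l.foldr (fun i acc => acc + g i) 0 = (l.map g).sum := by
    intro l g
    induction l with
    | nil => rfl
    | cons a l ih => rw [List.foldr_cons, ih, List.map_cons, List.sum_cons, add_comm]
  rw [h]
  rfl

lemma cnt_eq (x : ℕ) : cnt x = ((range 38400000).filter (fun p => x.testBit p = true)).card := by
  have h1 : MM = mask 24 400000 := by
    rw [mask_eq 24 400000 (by norm_num)]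
    rfl
  have h2 : ∀ q, ((x >>> q) &&& MM) % (2 ^ 24 - 1) =
      ∑ j ∈ range 400000, (x.testBit (q + 24 * j)).toNat := by
    intro q
    rw [h1]
    exact term_eq 24 (by norm_num) 400000 x q (by norm_num)
  unfold cnt
  simp only [foldr_range, h2]
  rw [Finset.card_filter]
  have h3 : (38400000 : ℕ) = 9600000 * 4 := by norm_num
  rw [h3, sum_range_blocks]
  apply Finset.sum_congr rfl
  intro i _
  have h4 : (9600000 : ℕ) = 24 * 400000 := by norm_num
  have h5 : ∑ r ∈ range 9600000, (if x.testBit (9600000 * i + r) = true then 1 else 0) =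
      ∑ j ∈ range 400000, ∑ r ∈ range 24,
        (if x.testBit (9600000 * i + (24 * j + r)) = true then 1 else 0) := by
    conv_lhs => rw [show range 9600000 = range (24 * 400000) from by rw [← h4]]
    exact sum_range_blocks (fun r => if x.testBit (9600000 * i + r) = true then 1 else 0) 24 400000
  rw [h5, Finset.sum_comm]
  apply Finset.sum_congr rfl
  intro j _
  apply Finset.sum_congr rfl
  intro r _
  have h6 : 9600000 * i + r + 24 * j = 9600000 * i + (24 * j + r) := by ring
  rw [← h6]
  cases x.testBit (9600000 * i + r + 24 * j) <;> rfl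

end Pool.Agent.Helper370_SEPZ
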