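import Pool.Agent.R135.SEPFinal
import Pool.Agent.Helper370_SEPZ.Bits

/-!
# Lattice points of the dilates of a symmetric edge polytope on nine vertices, by computation
-/

set_option autoImplicit false
open Finset

namespace Pool.Agent.Helper370_SEPZ

open Pool.Agent.R135.SEP

/-- weights of the coordinates -/
def wt (i : Fin 9) : ℕ := if i = 8 then 0 else 9 ^ (i : ℕ)

/-- the code of an arc -/
def shiftOf (p : Fin 9 × Fin 9) : ℕ := 9 ^ 7 + wt p.1 - wt p.2

/-- the codes of zero and of the arcs -/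
def shifts (A : List (Fin 9 × Fin 9)) : List ℕ := 9 ^ 7 :: A.map shiftOf

lemma wt_le (i : Fin 9) : wt i ≤ 9 ^ 7 := by
  revert i
  decide

/-- the code of an integer vector -/
def code (z : Fin 9 → ℤ) : ℤ := ∑ i, z i * (wt i : ℤ)

lemma code_add (x y : Fin 9 → ℤ) : code (x + y) = code x + code y := by
  unfold code
  rw [← Finset.sum_add_distrib]
  exact Finset.sum_congr rfl (fun i _ => by rw [Pi.add_apply]; ring)

lemma code_neg (x : Fin 9 → ℤ) : code (-x) = - code x := by
  unfold code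
  rw [← Finset.sum_neg_distrib]
  exact Finset.sum_congr rfl (fun i _ => by rw [Pi.neg_apply]; ring)

lemma code_zero : code 0 = 0 := by simp [code]

lemma code_ev (a b : Fin 9) : code (ev a b) = (wt a : ℤ) - wt b := by
  unfold code ev
  simp only [Pi.sub_apply, sub_mul, Finset.sum_sub_distrib, Pi.single_apply]
  simp

variable {G : SimpleGraph (Fin 9)}

lemma nu_zero (hG : G.Connected) : nu G 0 = 0 := by
  obtain ⟨f, _, hf⟩ := nu_attained hG (bal_zero)
  rw [← hf]
  simp [pr]

lemma nu_add_ev (hG : G.Connected) {z : Fin 9 → ℤ} (hz : bal z) {a b : Fin 9} (hab : G.Adj a b) :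
    nu G (z + ev a b) ≤ nu G z + 1 := by
  obtain ⟨f, hf, hf2⟩ := nu_attained hG (hz.add (bal_ev a b))
  rw [← hf2, pr_add_right, pr_ev]
  have h1 := le_nu hG hz hf
  have h2 := hf a b hab
  linarith

/-- lattice points of the dilates -/
def SS (G : SimpleGraph (Fin 9)) (m : ℕ) : Set (Fin 9 → ℤ) := {z | bal z ∧ nu G z ≤ m}

lemma SS_zero (hG : G.Connected) {z : Fin 9 → ℤ} (hz : z ∈ SS G 0) : z = 0 :=
  nu_zero_imp hG hz.1 (le_antisymm (by exact_mod_cast hz.2) (nu_nonneg hG hz.1))

lemma SS_succ (hG : G.Connected) {m : ℕ} {z : Fin 9 → ℤ} :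
    z ∈ SS G (m + 1) ↔ z ∈ SS G m ∨ ∃ a b, G.Adj a b ∧ z - ev a b ∈ SS G m := by
  constructor
  · rintro ⟨hz, hm⟩
    by_cases h : nu G z ≤ m
    · exact Or.inl ⟨hz, h⟩
    · right
      have h0 : 0 < nu G z := by
        have : (0 : ℤ) ≤ m := Int.natCast_nonneg m
        omega
      obtain ⟨a, b, hab, h2⟩ := peel hG (by norm_num) hz h0
      refine ⟨a, b, hab, hz.sub (bal_ev a b), ?_⟩
      rw [h2]
      push_cast at hm
      linarith
  · rintro (⟨hz, hm⟩ | ⟨a, b, hab, hz, hm⟩)
    · exact ⟨hz, by push_cast; linarith⟩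
    · have h1 : z = (z - ev a b) + ev a b := by rw [sub_add_cancel]
      have h2 := nu_add_ev hG hz hab
      rw [← h1] at h2
      refine ⟨?_, by push_cast; linarith⟩
      rw [h1]
      exact hz.add (bal_ev a b)

lemma code_bound (hG : G.Connected) (m : ℕ) {z : Fin 9 → ℤ} (hz : z ∈ SS G m) :
    -((m : ℤ) * 9 ^ 7) ≤ code z ∧ code z ≤ (m : ℤ) * 9 ^ 7 := by
  induction m generalizing z with
  | zero =>
    rw [SS_zero hG hz, code_zero]
    norm_num
  | succ m ih =>
    rcases (SS_succ hG).mp hz with h | ⟨a, b, _, h⟩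
    · obtain ⟨h1, h2⟩ := ih h
      push_cast
      constructor <;> linarith
    · obtain ⟨h1, h2⟩ := ih h
      have h3 : code z = code (z - ev a b) + code (ev a b) := by
        rw [← code_add, sub_add_cancel]
      have h4 := wt_le a
      have h5 := wt_le b
      rw [h3, code_ev]
      have h6 : ((wt a : ℕ) : ℤ) ≤ 9 ^ 7 := by exact_mod_cast h4
      have h7 : ((wt b : ℕ) : ℤ) ≤ 9 ^ 7 := by exact_mod_cast h5
      have h8 : (0 : ℤ) ≤ wt a := Int.natCast_nonneg _
      have h9 : (0 : ℤ) ≤ wt b := Int.natCast_nonneg _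
      push_cast
      constructor <;> linarith

lemma shiftOf_cast (p : Fin 9 × Fin 9) : (shiftOf p : ℤ) = 9 ^ 7 + wt p.1 - wt p.2 := by
  unfold shiftOf
  have h := wt_le p.2
  rw [Nat.cast_sub (by omega)]
  push_cast
  ring

lemma testBit_lev (hG : G.Connected) (A : List (Fin 9 × Fin 9))
    (hA : ∀ a b, G.Adj a b ↔ (a, b) ∈ A) (m p : ℕ) :
    (lev (shifts A) m).testBit p = true ↔ ∃ z ∈ SS G m, (p : ℤ) = code z + m * 9 ^ 7 := by
  induction m generalizing p with
  | zero =>
    constructor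
    · intro h
      have h0 : p = 0 := Nat.testBit_one_eq_true_iff_self_eq_zero.mp h
      subst h0
      refine ⟨0, ⟨bal_zero, ?_⟩, ?_⟩
      · rw [nu_zero hG]; norm_num
      · rw [code_zero]; norm_num
    · rintro ⟨z, hz, hp⟩
      rw [SS_zero hG hz, code_zero] at hp
      have h0 : p = 0 := by
        have : (p : ℤ) = 0 := by rw [hp]; norm_num
        exact_mod_cast this
      subst h0
      exact Nat.testBit_one_eq_true_iff_self_eq_zero.mpr rfl
  | succ m ih =>
    have h0 : lev (shifts A) (m + 1) = step (shifts A) (lev (shifts A) m) := rfl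
    rw [h0, testBit_step]
    constructor
    · rintro ⟨s, hs, hsp, hb⟩
      obtain ⟨z, hz, hzp⟩ := (ih (p - s)).mp hb
      rw [Nat.cast_sub hsp] at hzp
      rcases List.mem_cons.mp hs with rfl | hs
      · refine ⟨z, (SS_succ hG).mpr (Or.inl hz), ?_⟩
        push_cast at hzp ⊢
        linarith
      · obtain ⟨⟨a, b⟩, hab, rfl⟩ := List.mem_map.mp hs
        refine ⟨z + ev a b, (SS_succ hG).mpr (Or.inr ⟨a, b, (hA a b).mpr hab, ?_⟩), ?_⟩
        · rw [add_sub_cancel_right]; exact hz
        · rw [code_add, code_ev]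
          rw [shiftOf_cast] at hzp
          push_cast at hzp ⊢
          linarith
    · rintro ⟨z, hz, hp⟩
      rcases (SS_succ hG).mp hz with h | ⟨a, b, hab, h⟩
      · have h1 := (code_bound hG m h).1
        have h2 : 9 ^ 7 ≤ p := by
          have : ((9 ^ 7 : ℕ) : ℤ) ≤ p := by
            rw [hp]; push_cast; linarith
          exact_mod_cast this
        refine ⟨9 ^ 7, List.mem_cons_self, h2, (ih _).mpr ⟨z, h, ?_⟩⟩
        rw [Nat.cast_sub h2, hp]
        push_cast
        ring
      · have h1 := (code_bound hG m h).1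
        have h3 : code z = code (z - ev a b) + code (ev a b) := by
          rw [← code_add, sub_add_cancel]
        rw [code_ev] at h3
        have h2 : shiftOf (a, b) ≤ p := by
          have : (shiftOf (a, b) : ℤ) ≤ p := by
            rw [hp, shiftOf_cast, h3]; push_cast; linarith
          exact_mod_cast this
        refine ⟨shiftOf (a, b), List.mem_cons_of_mem _ (List.mem_map.mpr ⟨(a, b), (hA a b).mp hab,
          rfl⟩), h2, (ih _).mpr ⟨z - ev a b, h, ?_⟩⟩
        rw [Nat.cast_sub h2, hp, shiftOf_cast, h3]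
        push_cast
        ring

lemma coord_bound (hG : G.Connected) {m : ℕ} {z : Fin 9 → ℤ} (hz : z ∈ SS G m) (a : Fin 9) :
    -(m : ℤ) ≤ z a ∧ z a ≤ m := by
  have hl : Lip G (Pi.single a 1) := by
    intro b c _
    by_cases hb : b = a <;> by_cases hc : c = a <;> simp [hb, hc]
  have h3 : ∀ x : Fin 9 → ℤ, pr (Pi.single a 1) x = x a := by
    intro x
    unfold pr
    simp [Pi.single_apply]
  have h1 := le_nu hG hz.1 hl
  have h2 := le_nu hG hz.1.neg hl
  rw [nu_neg hG hz.1] at h2
  rw [h3] at h1 h2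
  rw [Pi.neg_apply] at h2
  have h4 := hz.2
  constructor <;> linarith

lemma sum9 (f : Fin 9 → ℤ) :
    ∑ i, f i = f 0 + f 1 + f 2 + f 3 + f 4 + f 5 + f 6 + f 7 + f 8 := by
  rw [Fin.sum_univ_castSucc, Fin.sum_univ_eight]
  rfl

lemma code_inj (hG : G.Connected) {m : ℕ} (hm : m ≤ 4) {y z : Fin 9 → ℤ} (hy : y ∈ SS G m)
    (hz : z ∈ SS G m) (h : code y = code z) : y = z := by
  have hd : ∀ a, -8 ≤ y a - z a ∧ y a - z a ≤ 8 := by
    intro a
    have h1 := coord_bound hG hy a
    have h2 := coord_bound hG hz a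
    have h3 : (m : ℤ) ≤ 4 := by exact_mod_cast hm
    omega
  have hby : ∑ a, y a = 0 := hy.1
  have hbz : ∑ a, z a = 0 := hz.1
  unfold code at h
  have w0 : wt 0 = 1 := by decide
  have w1 : wt 1 = 9 := by decide
  have w2 : wt 2 = 81 := by decide
  have w3 : wt 3 = 729 := by decide
  have w4 : wt 4 = 6561 := by decide
  have w5 : wt 5 = 59049 := by decide
  have w6 : wt 6 = 531441 := by decide
  have w7 : wt 7 = 4782969 := by decide
  have w8 : wt 8 = 0 := by decide
  rw [sum9] at hby hbz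
  rw [sum9, sum9] at h
  rw [w0, w1, w2, w3, w4, w5, w6, w7, w8] at h
  push_cast at h
  have d0 := hd 0
  have d1 := hd 1
  have d2 := hd 2
  have d3 := hd 3
  have d4 := hd 4
  have d5 := hd 5
  have d6 := hd 6
  have d7 := hd 7
  have key : ∀ a k : ℤ, (-8 ≤ a ∧ a ≤ 8) → a + 9 * k = 0 → a = 0 ∧ k = 0 := by
    intro a k h1 h2
    omega
  obtain ⟨e0, r0⟩ := key (y 0 - z 0) ((y 1 - z 1) + 9 * ((y 2 - z 2) + 9 * ((y 3 - z 3) +
    9 * ((y 4 - z 4) + 9 * ((y 5 - z 5) + 9 * ((y 6 - z 6) + 9 * (y 7 - z 7))))))) d0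
    (by linarith)
  obtain ⟨e1, r1⟩ := key _ _ d1 r0
  obtain ⟨e2, r2⟩ := key _ _ d2 r1
  obtain ⟨e3, r3⟩ := key _ _ d3 r2
  obtain ⟨e4, r4⟩ := key _ _ d4 r3
  obtain ⟨e5, r5⟩ := key _ _ d5 r4
  obtain ⟨e6, e7⟩ := key _ _ d6 r5
  have e8 : y 8 - z 8 = 0 := by linarith
  funext a
  have : ∀ a : Fin 9, y a - z a = 0 := by
    intro a
    fin_cases a
    · exact e0
    · exact e1
    · exact e2
    · exact e3
    · exact e4
    · exact e5
    · exact e6
    · exact e7
    · exact e8
  have := this a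
  omega

/-- the number of lattice points of the dilates -/
theorem ncard_SS (hG : G.Connected) (A : List (Fin 9 × Fin 9))
    (hA : ∀ a b, G.Adj a b ↔ (a, b) ∈ A) (m : ℕ) (hm : m ≤ 4) :
    (SS G m).ncard = cnt (lev (shifts A) m) := by
  rw [cnt_eq]
  have hm' : (m : ℤ) ≤ 4 := by exact_mod_cast hm
  have hcast : ∀ z ∈ SS G m, (((code z + m * 9 ^ 7).toNat : ℕ) : ℤ) = code z + m * 9 ^ 7 := by
    intro z hz
    have h1 := (code_bound hG m hz).1
    exact Int.toNat_of_nonneg (by linarith)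
  have himg : (fun z => (code z + m * 9 ^ 7).toNat) '' SS G m =
      (((range 38400000).filter (fun p => (lev (shifts A) m).testBit p = true) : Finset ℕ) :
        Set ℕ) := by
    ext p
    rw [Finset.mem_coe, Finset.mem_filter, Finset.mem_range, testBit_lev hG A hA]
    constructor
    · rintro ⟨z, hz, rfl⟩
      refine ⟨?_, z, hz, hcast z hz⟩
      have h1 := (code_bound hG m hz).2
      have h2 := hcast z hz
      have h3 : (((code z + m * 9 ^ 7).toNat : ℕ) : ℤ) < 38400000 := by
        rw [h2]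
        have h4 : (m : ℤ) * 9 ^ 7 ≤ 4 * 9 ^ 7 := by
          apply mul_le_mul_of_nonneg_right hm' (by norm_num)
        norm_num at h4 h1 ⊢
        linarith
      exact_mod_cast h3
    · rintro ⟨_, z, hz, hp⟩
      refine ⟨z, hz, ?_⟩
      have h2 := hcast z hz
      show (code z + m * 9 ^ 7).toNat = p
      exact_mod_cast h2.trans hp.symm
  rw [← Set.ncard_coe_finset, ← himg, Set.InjOn.ncard_image]
  intro y hy z hz h
  have h1 := hcast y hy
  have h2 := hcast z hz
  have h3 : (((code y + m * 9 ^ 7).toNat : ℕ) : ℤ) = (((code z + m * 9 ^ 7).toNat : ℕ) : ℤ) := by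
    exact_mod_cast h
  rw [h1, h2] at h3
  exact code_inj hG hm hy hz (by linarith)

end Pool.Agent.Helper370_SEPZ
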