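import Pool.Agent.Helper370_SEPZ.Count

/-!
# The graph, its two-connectedness, and transport along automorphisms
-/

set_option autoImplicit false
open Finset

namespace Pool.Agent.Helper370_SEPZ

open Pool.Agent.R135.SEP

/-- the nineteen edges -/
def edges0 : List (Fin 9 × Fin 9) :=
  [(0, 3), (0, 6), (0, 7), (0, 8), (1, 2), (1, 4), (1, 5), (1, 8), (2, 4), (2, 5), (2, 6), (3, 6),
    (3, 7), (3, 8), (4, 5), (4, 8), (5, 6), (6, 7), (7, 8)]

/-- the arcs -/
def arcs0 : List (Fin 9 × Fin 9) := edges0 ++ edges0.map Prod.swap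

/-- the arcs that remain when the edge `p` is deleted -/
def del (p : Fin 9 × Fin 9) : List (Fin 9 × Fin 9) :=
  arcs0.filter (fun q => decide (q ≠ p ∧ q ≠ p.swap))

/-- the graph: a `K₅` minus an edge on `0, 3, 7, 6, 8` (the missing edge is `68`), a `K₄` on
`1, 2, 4, 5`, and the edges `62, 65, 81, 84` -/
def G0 : SimpleGraph (Fin 9) where
  Adj a b := (a, b) ∈ arcs0
  symm := ⟨by decide⟩
  loopless := ⟨by decide⟩

instance : DecidableRel G0.Adj := fun a b => inferInstanceAs (Decidable ((a, b) ∈ arcs0))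

lemma G0_adj (a b : Fin 9) : G0.Adj a b ↔ (a, b) ∈ arcs0 := Iff.rfl

lemma del_adj (i j a b : Fin 9) : (G0.deleteEdges {s(i, j)}).Adj a b ↔ (a, b) ∈ del (i, j) := by
  rw [SimpleGraph.deleteEdges_adj, Set.mem_singleton_iff, Sym2.eq_iff, G0_adj]
  unfold del
  rw [List.mem_filter, decide_eq_true_eq]
  apply and_congr_right
  intro _
  simp only [ne_eq, Prod.mk.injEq, Prod.swap_prod_mk, not_or]

/-- a graph in which every vertex can walk down to the root is connected -/
lemma connected_of_parent {V : Type} (H : SimpleGraph V) (r : V) (par : V → V) (rk : V → ℕ)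
    (h : ∀ x, x ≠ r → H.Adj x (par x) ∧ rk (par x) < rk x) : H.Connected := by
  have key : ∀ (k : ℕ) (x : V), rk x ≤ k → H.Reachable x r := by
    intro k
    induction k with
    | zero =>
      intro x hx
      by_cases hr : x = r
      · rw [hr]
      · have := (h x hr).2
        omega
    | succ k ih =>
      intro x hx
      by_cases hr : x = r
      · rw [hr]
      · obtain ⟨h1, h2⟩ := h x hr
        exact h1.reachable.trans (ih _ (by omega))
  have : Nonempty V := ⟨r⟩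
  exact ⟨fun a b => (key _ a le_rfl).trans (key _ b le_rfl).symm⟩

/-- roots of the spanning trees of the vertex-deleted subgraphs -/
def root (v : Fin 9) : Fin 9 := if v = 6 then 8 else 6

/-- parents in a spanning tree that avoids `v` -/
def par (v : Fin 9) : Fin 9 → Fin 9 :=
  match v with
  | 0 => ![6, 2, 6, 6, 2, 6, 6, 6, 3]
  | 1 => ![6, 6, 6, 6, 2, 6, 6, 6, 0]
  | 2 => ![6, 5, 6, 6, 5, 6, 6, 6, 0]
  | 3 => ![6, 2, 6, 6, 2, 6, 6, 6, 0]
  | 4 => ![6, 2, 6, 6, 2, 6, 6, 6, 0]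
  | 5 => ![6, 2, 6, 6, 2, 6, 6, 6, 0]
  | 6 => ![8, 8, 1, 8, 8, 1, 8, 8, 8]
  | 7 => ![6, 2, 6, 6, 2, 6, 6, 6, 0]
  | 8 => ![6, 2, 6, 6, 2, 6, 6, 6, 0]

/-- distance to the root in the spanning tree -/
def rk (v : Fin 9) (x : Fin 9) : ℕ :=
  if x = root v then 0 else if par v x = root v then 1 else 2

lemma par_ok : ∀ v x : Fin 9, x ≠ v → x ≠ root v →
    G0.Adj x (par v x) ∧ par v x ≠ v ∧ rk v (par v x) < rk v x := by
  decide

lemma root_ne : ∀ v : Fin 9, root v ≠ v := by decide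

lemma par_ne_zero : ∀ x : Fin 9, x ≠ 8 → G0.Adj x (![8, 8, 1, 8, 8, 1, 0, 8, 8] x) ∧
    (![1, 1, 2, 1, 1, 2, 2, 1, 0] : Fin 9 → ℕ) (![8, 8, 1, 8, 8, 1, 0, 8, 8] x) <
      (![1, 1, 2, 1, 1, 2, 2, 1, 0] : Fin 9 → ℕ) x := by
  decide

lemma G0_connected : G0.Connected :=
  connected_of_parent G0 8 ![8, 8, 1, 8, 8, 1, 0, 8, 8] ![1, 1, 2, 1, 1, 2, 2, 1, 0] par_ne_zero

theorem twoConnected_G0 : TwoConnected G0 := by
  refine ⟨by norm_num, G0_connected, fun v => ?_⟩
  refine connected_of_parent (G0.induce {v}ᶜ) ⟨root v, root_ne v⟩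
    (fun x => if h : par v x.1 ≠ v then ⟨par v x.1, h⟩ else x) (fun x => rk v x.1) ?_
  rintro ⟨x, hx⟩ hne
  have hx' : x ≠ v := hx
  have hr : x ≠ root v := fun h => hne (Subtype.ext h)
  obtain ⟨h1, h2, h3⟩ := par_ok v x hx' hr
  rw [dif_pos h2]
  exact ⟨h1, h3⟩

lemma del_connected {i j : Fin 9} (h : G0.Adj i j) : (G0.deleteEdges {s(i, j)}).Connected :=
  twoConnected_G0.deleteEdges h

/-! ## Transport along a relabelling -/

lemma nu_comp {G H : SimpleGraph (Fin 9)} (σ : Equiv.Perm (Fin 9))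
    (h : ∀ a b, H.Adj a b ↔ G.Adj (σ a) (σ b)) (z : Fin 9 → ℤ) :
    nu G (z ∘ σ.symm) = nu H z := by
  unfold nu
  congr 1
  ext k
  constructor
  · rintro ⟨f, hf, hk⟩
    refine ⟨f ∘ σ, fun a b hab => hf _ _ ((h a b).mp hab), ?_⟩
    rw [← hk]
    unfold pr
    rw [← Equiv.sum_comp σ (fun a => f a * (z ∘ σ.symm) a)]
    apply Finset.sum_congr rfl
    intro a _
    simp
  · rintro ⟨f, hf, hk⟩
    refine ⟨f ∘ σ.symm, fun a b hab => hf _ _ ((h _ _).mpr (by simpa using hab)), ?_⟩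
    rw [← hk]
    unfold pr
    rw [← Equiv.sum_comp σ (fun a => (f ∘ σ.symm) a * (z ∘ σ.symm) a)]
    apply Finset.sum_congr rfl
    intro a _
    simp

lemma bal_comp (σ : Equiv.Perm (Fin 9)) (z : Fin 9 → ℤ) : bal (z ∘ σ.symm) ↔ bal z := by
  unfold bal
  rw [← Equiv.sum_comp σ (fun a => (z ∘ σ.symm) a)]
  simp

lemma ncard_comp {G H : SimpleGraph (Fin 9)} (σ : Equiv.Perm (Fin 9))
    (h : ∀ a b, H.Adj a b ↔ G.Adj (σ a) (σ b)) (m : ℕ) : (SS G m).ncard = (SS H m).ncard := by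
  have himg : (fun z : Fin 9 → ℤ => z ∘ σ.symm) '' SS H m = SS G m := by
    ext z
    constructor
    · rintro ⟨y, hy, rfl⟩
      exact ⟨(bal_comp σ y).mpr hy.1, by rw [nu_comp σ h]; exact hy.2⟩
    · intro hz
      have h1 : (z ∘ σ) ∘ σ.symm = z := by
        funext a
        simp
      refine ⟨z ∘ σ, ⟨?_, ?_⟩, h1⟩
      · rw [← bal_comp σ, h1]; exact hz.1
      · rw [← nu_comp σ h, h1]; exact hz.2
  rw [← himg, Set.ncard_image_of_injective]
  intro y z hyz
  funext a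
  have := congrFun hyz (σ a)
  simpa using this

/-- the numbers of lattice points of the first four dilates -/
def four (A : List (Fin 9 × Fin 9)) : ℕ × ℕ × ℕ × ℕ :=
  (cnt (lev (shifts A) 1), cnt (lev (shifts A) 2), cnt (lev (shifts A) 3), cnt (lev (shifts A) 4))

lemma ncard_zero {G : SimpleGraph (Fin 9)} (hG : G.Connected) : (SS G 0).ncard = 1 := by
  have h : SS G 0 = {0} := by
    ext z
    constructor
    · intro hz
      exact SS_zero hG hz
    · intro hz
      rw [Set.mem_singleton_iff] at hz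
      subst hz
      exact ⟨bal_zero, by rw [nu_zero hG]; norm_num⟩
  rw [h, Set.ncard_singleton]

end Pool.Agent.Helper370_SEPZ
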