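import Pool.Agent.Helper370_SEPZ.Graph

/-! Computation of numbers of lattice points. -/

set_option autoImplicit false

namespace Pool.Agent.Helper370_SEPZ

theorem v_all : four arcs0 = (39, 639, 5715, 33595) := by decide +kernel

theorem v_03 : four (del (0, 3)) = (37, 585, 5131, 29843) := by decide +kernel

end Pool.Agent.Helper370_SEPZ
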