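import Pool.Agent.Helper370_SEPZ.Graph

/-! Computation of numbers of lattice points. -/

set_option autoImplicit false

namespace Pool.Agent.Helper370_SEPZ

theorem v_06 : four (del (0, 6)) = (37, 583, 5129, 29935) := by decide +kernel

theorem v_12 : four (del (1, 2)) = (37, 585, 5149, 30041) := by decide +kernel

end Pool.Agent.Helper370_SEPZ
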