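import Pool.Agent.Helper370_SEPZ.Graph

/-! Computation of numbers of lattice points. -/

set_option autoImplicit false

namespace Pool.Agent.Helper370_SEPZ

theorem v_14 : four (del (1, 4)) = (37, 581, 5063, 29319) := by decide +kernel

theorem v_18 : four (del (1, 8)) = (37, 577, 5023, 29103) := by decide +kernel

end Pool.Agent.Helper370_SEPZ
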